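import Pool.Agent.N921.QDU.Fin
import Pool.Agent.N921.QDU.Exist

set_option autoImplicit false

/-!
# The fixed ring of the order 5 automorphism of the q-division ring
-/

namespace Pool.Agent.Results.MP_fd4dc8_al.FixedRingIsQDivisionRing

universe u v

open Pool.Agent.N921.QD

/-- The subalgebra of the elements fixed by an automorphism. -/
def fixedRing {k : Type*} [Field k] {D : Type*} [DivisionRing D] [Algebra k D] (π : D ≃ₐ[k] D) :
    Subalgebra k D where
  carrier := {d | π d = d}
  mul_mem' := by
    intro a b ha hb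
    change π (a * b) = a * b
    rw [map_mul, show π a = a from ha, show π b = b from hb]
  add_mem' := by
    intro a b ha hb
    change π (a + b) = a + b
    rw [map_add, show π a = a from ha, show π b = b from hb]
  algebraMap_mem' := by
    intro c
    exact π.commutes c

/-- Let `k` be a field and `q ∈ k^×` not a root of unity. The `q`-division ring `k_q(x,y)` exists,
and for every model `(D, x, y)` of it there is exactly one `k`-algebra automorphism `π` of `D` with
`π x = y` and `π y = x⁻¹ (y + q⁻¹)`; it has order `5` and its fixed ring is isomorphic to `D` as a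
`k`-algebra. -/
theorem result {k : Type u} [Field k] (q : k) (hq : q ≠ 0) (hroot : ∀ n : ℕ, 0 < n → q ^ n ≠ 1) :
    (∃ (D : Type u) (_ : DivisionRing D) (_ : Algebra k D) (x y : D), IsQ k q D x y) ∧
    ∀ (D : Type v) [DivisionRing D] [Algebra k D] (x y : D), IsQ k q D x y →
      ∃ π : D ≃ₐ[k] D, π x = y ∧ π y = x⁻¹ * (y + algebraMap k D q⁻¹) ∧
        (∀ π' : D ≃ₐ[k] D, π' x = y → π' y = x⁻¹ * (y + algebraMap k D q⁻¹) → π' = π) ∧
        orderOf π = 5 ∧ Nonempty (fixedRing π ≃ₐ[k] D) := by
  refine ⟨Pool.Agent.N921.QDU.Exist.t_exist k q hq, ?_⟩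
  intro D _ _ x y hD
  obtain ⟨π, hx, hy, ho⟩ := Pool.Agent.N921.QDU.Core.exists_pi hq hroot hD
  refine ⟨π, hx, hy, ?_, ho, ?_⟩
  · intro π' hx' hy'
    exact Pool.Agent.N921.QDU.Core.pi_unique hD π' π (hx'.trans hx.symm) (hy'.trans hy.symm)
  · obtain ⟨φ, hinj, hφ⟩ := Pool.Agent.N921.QDU.Core.main hq hroot hD π hx hy
    have hrange : φ.range = fixedRing π := by
      ext d
      exact (hφ d).symm
    exact ⟨((AlgEquiv.ofInjective φ hinj).trans (Subalgebra.equivOfEq _ _ hrange)).symm⟩

end Pool.Agent.Results.MP_fd4dc8_al.FixedRingIsQDivisionRing
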